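import Mathlib

/-!
# A connected smooth quandle that does not embed into any group
-/

open scoped Manifold ContDiff

namespace Pool.Agent.Results.MP_a41668_al.NoEmbedding

/-- The quandle axioms for the operation `op x y = x ▷ y`. -/
def IsQuandle {X : Type} (op : X → X → X) : Prop :=
  (∀ x, op x x = x) ∧ (∀ y, Function.Bijective fun x => op x y) ∧
    ∀ x y z, op (op x y) z = op (op x z) (op y z)

/-- The group generated by the maps `x ↦ x ▷ y` acts transitively. -/
def IsAlgConnected {X : Type} (op : X → X → X) : Prop :=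
  ∀ x y : X, ∃ g ∈ Subgroup.closure {g : Equiv.Perm X | ∃ z, ∀ w, g w = op w z}, g x = y

/-- The underlying manifold: two complex planes times the unit circle. -/
abbrev M : Type := (ℂ × ℂ) × Circle

/-- The smooth structure (product structure). -/
noncomputable abbrev model := (𝓘(ℝ, ℂ).prod 𝓘(ℝ, ℂ)).prod (𝓡 1)

/-- The quandle operation. -/
noncomputable def op (x y : M) : M :=
  ((((y.2 * x.2⁻¹ : Circle) : ℂ) * x.1.2 + (y.1.1 - y.1.2),
    ((y.2 * x.2⁻¹ : Circle) : ℂ) * (x.1.1 - (y.1.1 - y.1.2))), y.2 * y.2 * x.2⁻¹)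

lemma smooth (n : WithTop ℕ∞) : ContMDiff (model.prod model) model n
    (fun p : M × M => op p.1 p.2) := by
  have hc : ContMDiff (𝓡 1) 𝓘(ℝ, ℂ) n (fun z : Circle => (z : ℂ)) := by
    have := finrank_real_complex_fact'
    exact contMDiff_coe_sphere
  have x11 : ContMDiff (model.prod model) 𝓘(ℝ, ℂ) n (fun p : M × M => p.1.1.1) :=
    contMDiff_fst.comp (contMDiff_fst.comp contMDiff_fst)
  have x12 : ContMDiff (model.prod model) 𝓘(ℝ, ℂ) n (fun p : M × M => p.1.1.2) :=
    contMDiff_snd.comp (contMDiff_fst.comp contMDiff_fst)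
  have x2 : ContMDiff (model.prod model) (𝓡 1) n (fun p : M × M => p.1.2) :=
    contMDiff_snd.comp contMDiff_fst
  have y11 : ContMDiff (model.prod model) 𝓘(ℝ, ℂ) n (fun p : M × M => p.2.1.1) :=
    contMDiff_fst.comp (contMDiff_fst.comp contMDiff_snd)
  have y12 : ContMDiff (model.prod model) 𝓘(ℝ, ℂ) n (fun p : M × M => p.2.1.2) :=
    contMDiff_snd.comp (contMDiff_fst.comp contMDiff_snd)
  have y2 : ContMDiff (model.prod model) (𝓡 1) n (fun p : M × M => p.2.2) :=
    contMDiff_snd.comp contMDiff_snd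
  have hr : ContMDiff (model.prod model) 𝓘(ℝ, ℂ) n
      (fun p : M × M => ((p.2.2 * p.1.2⁻¹ : Circle) : ℂ)) := hc.comp (y2.mul x2.inv)
  have hd : ContMDiff (model.prod model) 𝓘(ℝ, ℂ) n (fun p : M × M => p.2.1.1 - p.2.1.2) :=
    y11.sub y12
  have mul : ∀ f g : M × M → ℂ, ContMDiff (model.prod model) 𝓘(ℝ, ℂ) n f →
      ContMDiff (model.prod model) 𝓘(ℝ, ℂ) n g →
      ContMDiff (model.prod model) 𝓘(ℝ, ℂ) n (fun p => f p * g p) := fun f g hf hg =>
    (contDiff_mul (𝕜 := ℝ) (𝔸 := ℂ)).comp_contMDiff (hf.prodMk_space hg)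
  exact (((mul _ _ hr x12).add hd).prodMk (mul _ _ hr (x11.sub hd))).prodMk
    ((y2.mul y2).mul x2.inv)

lemma op_op (x y : M) : op (op x y) y = x := by
  obtain ⟨⟨p, q⟩, z⟩ := x
  obtain ⟨⟨p', q'⟩, w⟩ := y
  have hz : (z : ℂ) ≠ 0 := z.coe_ne_zero
  have hw : (w : ℂ) ≠ 0 := w.coe_ne_zero
  refine Prod.ext (Prod.ext ?_ ?_) ?_
  · simp only [op, Circle.coe_mul, Circle.coe_inv]
    field_simp
    ring
  · simp only [op, Circle.coe_mul, Circle.coe_inv]
    field_simp
    ring
  · ext
    simp only [op, Circle.coe_mul, Circle.coe_inv]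
    field_simp

lemma op_self (x : M) : op x x = x := by
  obtain ⟨⟨p, q⟩, z⟩ := x
  have hz : (z : ℂ) ≠ 0 := z.coe_ne_zero
  refine Prod.ext (Prod.ext ?_ ?_) ?_
  · simp [op]
  · simp [op]
  · simp [op]

lemma op_dist (x y t : M) : op (op x y) t = op (op x t) (op y t) := by
  obtain ⟨⟨p, q⟩, z⟩ := x
  obtain ⟨⟨p', q'⟩, w⟩ := y
  obtain ⟨⟨p'', q''⟩, v⟩ := t
  have hz : (z : ℂ) ≠ 0 := z.coe_ne_zero
  have hw : (w : ℂ) ≠ 0 := w.coe_ne_zero
  have hv : (v : ℂ) ≠ 0 := v.coe_ne_zero
  refine Prod.ext (Prod.ext ?_ ?_) ?_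
  · simp only [op, Circle.coe_mul, Circle.coe_inv]
    field_simp
    ring
  · simp only [op, Circle.coe_mul, Circle.coe_inv]
    field_simp
    ring
  · ext
    simp only [op, Circle.coe_mul, Circle.coe_inv]
    field_simp

/-- Every point is reached from the base point in two steps. -/
lemma reach (x : M) : ∃ y z : M, op (op ((0, 0), 1) y) z = x := by
  obtain ⟨⟨a, b⟩, w⟩ := x
  obtain ⟨s, hs, hs1⟩ : ∃ s : Circle, s * s = w ∧ s ≠ 1 := by
    by_cases hw : w = 1
    · refine ⟨-1, ?_, ?_⟩
      · rw [hw]; simp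
      · intro h
        have := congrArg (fun z : Circle => (z : ℂ)) h
        norm_num [Complex.ext_iff] at this
    · obtain ⟨t, rfl⟩ := Circle.exp_surjective w
      refine ⟨Circle.exp (t / 2), ?_, ?_⟩
      · rw [← Circle.exp_add]; simp
      · intro h
        apply hw
        have : Circle.exp t = Circle.exp (t / 2) * Circle.exp (t / 2) := by
          rw [← Circle.exp_add]; simp
        rw [this, h, one_mul]
  have hs0 : (s : ℂ) ≠ 0 := s.coe_ne_zero
  have hs1' : (1 : ℂ) - s ≠ 0 := by
    intro h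
    apply hs1
    ext
    simpa using (sub_eq_zero.1 h).symm
  refine ⟨(((a + b / s) / (1 - s), 0), 1), (((a + b / s) / (1 - s) - b / s, 0), s), ?_⟩
  refine Prod.ext (Prod.ext ?_ ?_) ?_
  · simp only [op, Circle.coe_mul, Circle.coe_inv, Circle.coe_one]
    field_simp
    ring
  · simp only [op, Circle.coe_mul, Circle.coe_inv, Circle.coe_one]
    field_simp
    ring
  · simp only [op]
    rw [← hs]
    simp

lemma algConnected : IsAlgConnected op := by
  let tr : M → Equiv.Perm M := fun y =>
    ⟨fun x => op x y, fun x => op x y, fun x => op_op x y, fun x => op_op x y⟩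
  have htr : ∀ y, tr y ∈ Subgroup.closure {g : Equiv.Perm M | ∃ z, ∀ w, g w = op w z} :=
    fun y => Subgroup.subset_closure ⟨y, fun w => rfl⟩
  have h0 : ∀ x, ∃ g ∈ Subgroup.closure {g : Equiv.Perm M | ∃ z, ∀ w, g w = op w z},
      g ((0, 0), 1) = x := by
    intro x
    obtain ⟨y, z, h⟩ := reach x
    exact ⟨tr z * tr y, mul_mem (htr _) (htr _), h⟩
  intro x y
  obtain ⟨g, hg, hgx⟩ := h0 x
  obtain ⟨h, hh, hhy⟩ := h0 y
  refine ⟨h * g⁻¹, mul_mem hh (inv_mem hg), ?_⟩
  rw [Equiv.Perm.mul_apply, ← hgx]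
  have : g⁻¹ (g ((0, 0), 1)) = ((0, 0), 1) := g.symm_apply_apply _
  rw [this, hhy]

universe u

/-- The operation `op` makes the connected manifold `ℂ × ℂ × Circle` a smooth quandle which is
algebraically connected, and no quandle homomorphism from it to the conjugation quandle of a group
is injective. -/
theorem result : (∀ n : WithTop ℕ∞, ContMDiff (model.prod model) model n
      (fun p : M × M => op p.1 p.2)) ∧
    IsManifold model ω M ∧ T2Space M ∧ SecondCountableTopology M ∧ ConnectedSpace M ∧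
    IsQuandle op ∧ IsAlgConnected op ∧
    ∀ (G : Type u) [Group G] (f : M → G), (∀ x y, f (op x y) = (f y)⁻¹ * f x * f y) →
      ¬ Function.Injective f := by
  refine ⟨smooth, inferInstance, inferInstance, inferInstance, ?_, ⟨op_self, ?_, op_dist⟩, algConnected, ?_⟩
  · have : ConnectedSpace Circle := by
      have hr : Set.range Circle.exp = Set.univ := Circle.exp_surjective.range_eq
      refine connectedSpace_iff_univ.2 ?_
      rw [← hr]
      exact isConnected_range Circle.exp.continuous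
    infer_instance
  · intro y
    exact Function.bijective_iff_has_inverse.2 ⟨fun x => op x y,
      fun x => op_op x y, fun x => op_op x y⟩
  · intro G _ f hf hinj
    let x : M := ((1, -1), 1)
    let y : M := ((0, 0), -1)
    have h1 : op x y = x := by
      refine Prod.ext (Prod.ext ?_ ?_) ?_
      · simp [op, x, y]
      · simp [op, x, y]
      · simp [op, x, y]
    have h2 : f y * f x = f x * f y := by
      have := hf x y
      rw [h1] at this
      have h : f y * f x = f y * ((f y)⁻¹ * f x * f y) := congrArg (fun t => f y * t) this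
      rw [h]
      group
    have h3 : f (op y x) = f y := by
      rw [hf, mul_assoc, h2, inv_mul_cancel_left]
    have h4 := hinj h3
    have h5 := congrArg (fun t : M => t.1.1) h4
    norm_num [op, x, y] at h5

end Pool.Agent.Results.MP_a41668_al.NoEmbedding
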